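import Mathlib

set_option autoImplicit false

namespace Pool.Agent.H.MP_037dd7_al

open Module

lemma lower {S : Type} [Finite S] (D : (S →₀ ℚ) →ₗ[ℚ] (ℕ →₀ ℚ)) (P : Finset ℕ) (src : ℕ → S)
    (ord : ℕ → ℕ) (h1 : ∀ v ∈ P, D (Finsupp.single (src v) 1) v ≠ 0)
    (h2 : ∀ v ∈ P, ∀ w ∈ P, w ≠ v → D (Finsupp.single (src v) 1) w ≠ 0 → ord w < ord v) :
    P.card ≤ finrank ℚ (LinearMap.range D) := by
  classical
  let z : P → LinearMap.range D := fun v => ⟨D (Finsupp.single (src v) 1), _, rfl⟩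
  have hz : LinearIndependent ℚ z := by
    rw [Fintype.linearIndependent_iff]
    intro g hg
    by_contra hne
    push Not at hne
    obtain ⟨v0, hv0⟩ := hne
    obtain ⟨v, hv, hmax⟩ := Finset.exists_max_image (Finset.univ.filter fun v : P => g v ≠ 0)
      (fun v => ord v) ⟨v0, by simpa using hv0⟩
    have hv' : g v ≠ 0 := by simpa using hv
    have h3 := congrArg (fun x : LinearMap.range D => (x : ℕ →₀ ℚ) v) hg
    simp only [Submodule.coe_sum, Submodule.coe_smul, Finsupp.finsetSum_apply, Finsupp.smul_apply,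
      smul_eq_mul, Submodule.coe_zero, Finsupp.zero_apply, z] at h3
    rw [Finset.sum_eq_single v] at h3
    · exact h1 v v.2 ((mul_eq_zero.mp h3).resolve_left hv')
    · intro w _ hw
      by_contra h4
      have h5 := mul_ne_zero_iff.mp h4
      have h6 := h2 w w.2 v v.2 (fun h => hw (Subtype.ext h).symm) h5.2
      have h7 := hmax w (by simpa using h5.1)
      omega
    · simp
  simpa using hz.fintype_card_le_finrank

/-- a list of pairs read as a finitely supported function -/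
noncomputable def toF : List (ℕ × ℤ) → (ℕ →₀ ℚ)
  | [] => 0
  | p :: l => Finsupp.single p.1 (p.2 : ℚ) + toF l

def coef (l : List (ℕ × ℤ)) (c : ℕ) : ℤ :=
  List.rec 0 (fun p _ r => cond (Nat.beq p.1 c) (p.2 + r) r) l

lemma coef_cons (p : ℕ × ℤ) (l : List (ℕ × ℤ)) (c : ℕ) :
    coef (p :: l) c = cond (Nat.beq p.1 c) (p.2 + coef l c) (coef l c) := rfl

lemma toF_apply (l : List (ℕ × ℤ)) (c : ℕ) : toF l c = (coef l c : ℚ) := by
  induction l with
  | nil => simp [toF, coef]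
  | cons p l ih =>
    rw [toF, coef_cons, Finsupp.add_apply, ih, Finsupp.single_apply]
    by_cases h : p.1 = c
    · simp [h]
    · have : Nat.beq p.1 c = false := by
        rw [Bool.eq_false_iff]; intro h2; exact h (Nat.eq_of_beq_eq_true h2)
      simp [h, this]

lemma coef_mem (l : List (ℕ × ℤ)) (c : ℕ) (h : coef l c ≠ 0) : ∃ p ∈ l, p.1 = c := by
  induction l with
  | nil => simp [coef] at h
  | cons p l ih =>
    by_cases h2 : p.1 = c
    · exact ⟨p, by simp, h2⟩
    · have : Nat.beq p.1 c = false := by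
        rw [Bool.eq_false_iff]; intro h3; exact h2 (Nat.eq_of_beq_eq_true h3)
      rw [coef_cons, this] at h
      obtain ⟨q, hq, hq2⟩ := ih h
      exact ⟨q, by simp [hq], hq2⟩

def allL {α : Type} (f : α → Bool) (l : List α) : Bool :=
  List.rec true (fun p _ r => f p && r) l

lemma allL_spec {α : Type} (f : α → Bool) (l : List α) (h : allL f l = true) :
    ∀ p ∈ l, f p = true := by
  induction l with
  | nil => simp
  | cons p l ih =>
    have h' : (f p && allL f l) = true := h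
    rw [Bool.and_eq_true] at h'
    intro q hq
    rcases List.mem_cons.mp hq with rfl | hq
    · exact h'.1
    · exact ih h'.2 q hq

def isZ (x : ℤ) : Bool := decide (x = 0)

def isZero (l : List (ℕ × ℤ)) : Bool := allL (fun p => isZ (coef l p.1)) l

lemma isZero_spec (l : List (ℕ × ℤ)) (h : isZero l = true) : toF l = 0 := by
  ext c
  rw [toF_apply]
  by_contra h2
  have h3 : coef l c ≠ 0 := by simpa using h2
  obtain ⟨p, hp, rfl⟩ := coef_mem l c h3
  have := allL_spec _ _ h p hp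
  simp [isZ] at this
  exact h3 this

/-- add a multiple of a list in front of an accumulator -/
def addTo (k : ℤ) (l acc : List (ℕ × ℤ)) : List (ℕ × ℤ) :=
  List.rec acc (fun q _ r => (q.1, k * q.2) :: r) l

lemma toF_addTo (k : ℤ) (l acc : List (ℕ × ℤ)) :
    toF (addTo k l acc) = (k : ℚ) • toF l + toF acc := by
  induction l with
  | nil => simp [addTo, toF]
  | cons p l ih =>
    have : addTo k (p :: l) acc = (p.1, k * p.2) :: addTo k l acc := rfl
    rw [this, toF, toF, ih]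
    simp [add_assoc]

def bind (pi : ℕ → List (ℕ × ℤ)) (l : List (ℕ × ℤ)) : List (ℕ × ℤ) :=
  List.rec [] (fun p _ r => addTo p.2 (pi p.1) r) l

noncomputable def PiL (pi : ℕ → List (ℕ × ℤ)) : (ℕ →₀ ℚ) →ₗ[ℚ] (ℕ →₀ ℚ) :=
  Finsupp.linearCombination ℚ (fun c => toF (pi c))

lemma PiL_toF (pi : ℕ → List (ℕ × ℤ)) (l : List (ℕ × ℤ)) : PiL pi (toF l) = toF (bind pi l) := by
  induction l with
  | nil => simp [toF, bind]
  | cons p l ih =>
    have : bind pi (p :: l) = addTo p.2 (pi p.1) (bind pi l) := rfl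
    rw [this, toF_addTo, toF, map_add, ih]
    simp [PiL]

def allB (f : ℕ → Bool) (k : ℕ) : ℕ → Bool :=
  Nat.rec f (fun _ r lo => r (2 * lo) && r (2 * lo + 1)) k

lemma allB_spec (f : ℕ → Bool) (k : ℕ) : ∀ lo, allB f k lo = true →
    ∀ c, c / 2 ^ k = lo → f c = true := by
  induction k with
  | zero => intro lo h c hc; simp at hc; rw [hc]; exact h
  | succ k ih =>
    intro lo h c hc
    have h' : (allB f k (2 * lo) && allB f k (2 * lo + 1)) = true := h
    rw [Bool.and_eq_true] at h'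
    rw [pow_succ, ← Nat.div_div_eq_div_mul] at hc
    rcases Nat.mod_two_eq_zero_or_one (c / 2 ^ k) with h0 | h0
    · exact ih _ h'.1 c (by omega)
    · exact ih _ h'.2 c (by omega)

def cnt (f : ℕ → Bool) (k : ℕ) : ℕ → ℕ :=
  Nat.rec (fun lo => cond (f lo) 1 0) (fun _ r lo => r (2 * lo) + r (2 * lo + 1)) k

lemma cnt_spec (f : ℕ → Bool) (k : ℕ) : ∀ lo,
    cnt f k lo = ∑ c ∈ Finset.Ico (lo * 2 ^ k) ((lo + 1) * 2 ^ k), if f c = true then 1 else 0 := by
  induction k with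
  | zero =>
    intro lo
    rw [pow_zero, mul_one, mul_one, Nat.Ico_succ_singleton, Finset.sum_singleton]
    cases h : f lo <;> simp [cnt, h]
  | succ k ih =>
    intro lo
    have h' : cnt f (k + 1) lo = cnt f k (2 * lo) + cnt f k (2 * lo + 1) := rfl
    rw [h', ih, ih, Finset.sum_Ico_consecutive]
    · congr 2 <;> ring
    · exact Nat.mul_le_mul_right _ (by omega)
    · exact Nat.mul_le_mul_right _ (by omega)

lemma cnt_card (f : ℕ → Bool) (k : ℕ) :
    ((Finset.range (2 ^ k)).filter (fun c => f c = true)).card = cnt f k 0 := by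
  rw [cnt_spec, Finset.card_filter]
  simp

inductive Tr : Type
  | leaf : ℕ → Tr
  | node : Tr → Tr → Tr

noncomputable def Tr.get (t : Tr) : ℕ → ℕ :=
  Tr.rec (fun n _ => n) (fun _ _ l r i => cond (Nat.beq (i % 2) 0) (l (i / 2)) (r (i / 2))) t

def decL (fuel : ℕ) : ℕ → List (ℕ × ℤ) :=
  Nat.rec (fun _ => []) (fun _ r x => cond (Nat.beq x 0) []
    ((x % 8192, Int.subNatNat (x / 8192 % 8) 4) :: r (x / 65536))) fuel

def opN (a b : ℕ) : ℕ := (230247648024455721754530280375944 >>> (18 * a + 3 * b)) % 8 % 6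

def op (a b : Fin 6) : Fin 6 := ⟨opN a b, Nat.mod_lt _ (by norm_num)⟩

lemma op_sd : ∀ a b c : Fin 6, op (op a b) c = op (op a c) (op b c) := by decide +kernel

def dec (m u : ℕ) : Fin m → Fin 6 := fun j => ⟨u / 6 ^ (j : ℕ) % 6, Nat.mod_lt _ (by norm_num)⟩

def e4 (a b c d : ℕ) : ℕ := a + 6 * (b + 6 * (c + 6 * d))
def e5 (a b c d e : ℕ) : ℕ := a + 6 * e4 b c d e
def e6 (a b c d e f : ℕ) : ℕ := a + 6 * e5 b c d e f

def enc4 (x : Fin 4 → Fin 6) : ℕ := e4 (x 0) (x 1) (x 2) (x 3)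
def enc5 (x : Fin 5 → Fin 6) : ℕ := e5 (x 0) (x 1) (x 2) (x 3) (x 4)
def enc6 (x : Fin 6 → Fin 6) : ℕ := e6 (x 0) (x 1) (x 2) (x 3) (x 4) (x 5)

def b4 (a b c d e : ℕ) : List (ℕ × ℤ) :=
  [(e4 b c d e, 1), (e4 (opN a b) c d e, -1), (e4 (opN a c) (opN b c) d e, 1),
   (e4 (opN a d) (opN b d) (opN c d) e, -1), (e4 (opN a e) (opN b e) (opN c e) (opN d e), 1)]

def b5 (a b c d e f : ℕ) : List (ℕ × ℤ) :=
  [(e5 b c d e f, 1), (e5 (opN a b) c d e f, -1), (e5 (opN a c) (opN b c) d e f, 1),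
   (e5 (opN a d) (opN b d) (opN c d) e f, -1), (e5 (opN a e) (opN b e) (opN c e) (opN d e) f, 1),
   (e5 (opN a f) (opN b f) (opN c f) (opN d f) (opN e f), -1)]

def b6 (a b c d e f g : ℕ) : List (ℕ × ℤ) :=
  [(e6 b c d e f g, 1), (e6 (opN a b) c d e f g, -1), (e6 (opN a c) (opN b c) d e f g, 1),
   (e6 (opN a d) (opN b d) (opN c d) e f g, -1),
   (e6 (opN a e) (opN b e) (opN c e) (opN d e) f g, 1),
   (e6 (opN a f) (opN b f) (opN c f) (opN d f) (opN e f) g, -1),
   (e6 (opN a g) (opN b g) (opN c g) (opN d g) (opN e g) (opN f g), 1)]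

def bd4 (u : ℕ) : List (ℕ × ℤ) :=
  b4 (u / 1 % 6) (u / 6 % 6) (u / 36 % 6) (u / 216 % 6) (u / 1296 % 6)
def bd5 (u : ℕ) : List (ℕ × ℤ) :=
  b5 (u / 1 % 6) (u / 6 % 6) (u / 36 % 6) (u / 216 % 6) (u / 1296 % 6) (u / 7776 % 6)
def bd6 (u : ℕ) : List (ℕ × ℤ) :=
  b6 (u / 1 % 6) (u / 6 % 6) (u / 36 % 6) (u / 216 % 6) (u / 1296 % 6) (u / 7776 % 6)
    (u / 46656 % 6)

/-- normalise the entries of a list (forces evaluation in the kernel) -/
def force {α : Type} (n : ℕ) (k : ℕ → α) : α := Nat.rec (k 0) (fun m _ => k (m + 1)) n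

lemma force_eq {α : Type} (n : ℕ) (k : ℕ → α) : force n k = k n := by cases n <;> rfl

end Pool.Agent.H.MP_037dd7_al
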