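import Pool.Agent.H.MP_037dd7_al.Defs

set_option autoImplicit false

namespace Pool.Agent.H.MP_037dd7_al

open Module

noncomputable def DD (m : ℕ) : ((Fin (m + 1) → Fin 6) →₀ ℚ) →ₗ[ℚ] ((Fin m → Fin 6) →₀ ℚ) :=
  ∑ i : Fin (m + 1), ((-1 : ℚ) ^ (i : ℕ)) •
    Finsupp.lmapDomain ℚ ℚ
      (fun (x : Fin (m + 1) → Fin 6) (j : Fin m) =>
        if Fin.castSucc j < i then op (x (i.succAbove j)) (x i) else x (i.succAbove j))

lemma key {m : ℕ} (enc : (Fin m → Fin 6) → ℕ) (x : Fin (m + 1) → Fin 6) :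
    Finsupp.lmapDomain ℚ ℚ enc (DD m (Finsupp.single x 1)) =
      ∑ i : Fin (m + 1), Finsupp.single (enc (fun (j : Fin m) =>
        if Fin.castSucc j < i then op (x (i.succAbove j)) (x i) else x (i.succAbove j)))
        ((-1 : ℚ) ^ (i : ℕ)) := by
  simp [DD, LinearMap.sum_apply, Finsupp.mapDomain_single]

lemma br4 (x : Fin 5 → Fin 6) :
    Finsupp.lmapDomain ℚ ℚ enc4 (DD 4 (Finsupp.single x 1)) =
      toF (b4 (x 0) (x 1) (x 2) (x 3) (x 4)) := by
  rw [key]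
  simp only [Fin.sum_univ_succ, Fin.sum_univ_zero, b4, toF]
  norm_num
  rfl

lemma br5 (x : Fin 6 → Fin 6) :
    Finsupp.lmapDomain ℚ ℚ enc5 (DD 5 (Finsupp.single x 1)) =
      toF (b5 (x 0) (x 1) (x 2) (x 3) (x 4) (x 5)) := by
  rw [key]
  simp only [Fin.sum_univ_succ, Fin.sum_univ_zero, b5, toF]
  norm_num
  rfl

lemma br6 (x : Fin 7 → Fin 6) :
    Finsupp.lmapDomain ℚ ℚ enc6 (DD 6 (Finsupp.single x 1)) =
      toF (b6 (x 0) (x 1) (x 2) (x 3) (x 4) (x 5) (x 6)) := by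
  rw [key]
  simp only [Fin.sum_univ_succ, Fin.sum_univ_zero, b6, toF]
  norm_num
  rfl

lemma rank_comp {A B C : Type} [AddCommGroup A] [Module ℚ A] [AddCommGroup B] [Module ℚ B]
    [AddCommGroup C] [Module ℚ C] [Module.Finite ℚ A] (f : A →ₗ[ℚ] B) (g : B →ₗ[ℚ] C) :
    finrank ℚ (LinearMap.range (g ∘ₗ f)) ≤ finrank ℚ (LinearMap.range f) := by
  rw [LinearMap.range_comp]
  exact Submodule.finrank_map_le _ _

lemma upper {S T : Type} [Fintype S] [Fintype T] (D : (S →₀ ℚ) →ₗ[ℚ] (T →₀ ℚ)) (enc : T → ℕ)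
    (dc : ℕ → T) (pi : ℕ → List (ℕ × ℤ)) (P : Finset ℕ)
    (h1 : ∀ x, PiL pi (Finsupp.lmapDomain ℚ ℚ enc (D (Finsupp.single x 1))) = 0)
    (h2 : ∀ c ∈ P, enc (dc c) = c ∧ pi c = [(c, 1)]) :
    finrank ℚ (LinearMap.range D) + P.card ≤ Fintype.card T := by
  obtain ⟨Q, hQ⟩ : ∃ Q, Q = PiL pi ∘ₗ Finsupp.lmapDomain ℚ ℚ enc := ⟨_, rfl⟩
  have hv : ∀ c ∈ P, Q (Finsupp.single (dc c) 1) = Finsupp.single c 1 := by
    intro c hc
    obtain ⟨h3, h4⟩ := h2 c hc
    simp [hQ, PiL, Finsupp.mapDomain_single, h3, h4, toF]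
  have hl := lower Q P dc (fun _ => 0) (fun v hv' => by simp [hv v hv'])
    (fun v hv' w _ hw h => by
      rw [hv v hv', Finsupp.single_apply, if_neg (Ne.symm hw)] at h
      exact absurd rfl h)
  have hk : LinearMap.range D ≤ LinearMap.ker Q := by
    rw [LinearMap.range_le_ker_iff]
    apply Finsupp.lhom_ext'
    intro x
    ext1
    simpa [hQ] using h1 x
  have h5 := Submodule.finrank_mono hk
  have h6 := LinearMap.finrank_range_add_finrank_ker Q
  rw [Module.finrank_finsupp_self] at h6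
  omega

lemma dec_val (m u : ℕ) (j : Fin m) : (dec m u j : ℕ) = u / 6 ^ (j : ℕ) % 6 := rfl

lemma enc4_dec (c : ℕ) (h : c < 1296) : enc4 (dec 4 c) = c := by
  simp [enc4, e4, dec_val]; omega

lemma enc5_dec (c : ℕ) (h : c < 7776) : enc5 (dec 5 c) = c := by
  simp [enc5, e5, e4, dec_val]; omega

lemma bd4_enc (x : Fin 5 → Fin 6) :
    enc5 x < 7776 ∧ bd4 (enc5 x) = b4 (x 0) (x 1) (x 2) (x 3) (x 4) := by
  have h0 := (x 0).2; have h1 := (x 1).2; have h2 := (x 2).2; have h3 := (x 3).2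
  have h4 := (x 4).2
  constructor
  · simp only [enc5, e5, e4]; omega
  · simp only [bd4, enc5, e5, e4]
    congr 1 <;> omega

lemma bd5_enc (x : Fin 6 → Fin 6) :
    enc6 x < 46656 ∧ bd5 (enc6 x) = b5 (x 0) (x 1) (x 2) (x 3) (x 4) (x 5) := by
  have h0 := (x 0).2; have h1 := (x 1).2; have h2 := (x 2).2; have h3 := (x 3).2
  have h4 := (x 4).2; have h5 := (x 5).2
  constructor
  · simp only [enc6, e6, e5, e4]; omega
  · simp only [bd5, enc6, e6, e5, e4]
    congr 1 <;> omega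

lemma bd6_dec (u : ℕ) : Finsupp.lmapDomain ℚ ℚ enc6 (DD 6 (Finsupp.single (dec 7 u) 1)) =
    toF (bd6 u) := by
  rw [br6]; rfl

lemma r4_le (hu : ∀ u, u / 2 ^ 13 = 0 → upChk4 u = true) (hc : cnt free4 11 0 = 528) :
    finrank ℚ (LinearMap.range (DD 4)) ≤ 768 := by
  have h := upper (DD 4) enc4 (dec 4) pi4
    ((Finset.range (2 ^ 11)).filter (fun c => free4 c = true)) ?_ ?_
  · rw [cnt_card, hc] at h
    simp at h
    omega
  · intro x
    obtain ⟨h1, h2⟩ := bd4_enc x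
    have h3 := hu (enc5 x) (by omega)
    have h4 : Nat.blt (enc5 x) 7776 = true := by simpa using h1
    rw [upChk4, frc_eq, h4, cond_true, frcL_eq, frcL_eq, h2] at h3
    rw [br4, PiL_toF, isZero_spec _ h3]
  · intro c hc
    have h1 := (Finset.mem_filter.mp hc).2
    rw [free4, frc_eq] at h1
    simp only [Bool.and_eq_true, Nat.blt_eq, decide_eq_true_eq] at h1
    exact ⟨enc4_dec c h1.1, h1.2⟩

lemma r5_le (hu : ∀ u, u < 46656 → upChk5 u = true) (hc : cnt free5 13 0 = 3175) :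
    finrank ℚ (LinearMap.range (DD 5)) ≤ 4601 := by
  have h := upper (DD 5) enc5 (dec 5) pi5
    ((Finset.range (2 ^ 13)).filter (fun c => free5 c = true)) ?_ ?_
  · rw [cnt_card, hc] at h
    simp at h
    omega
  · intro x
    obtain ⟨h1, h2⟩ := bd5_enc x
    have h3 := hu (enc6 x) h1
    have h4 : Nat.blt (enc6 x) 46656 = true := by simpa using h1
    rw [upChk5, frc_eq, h4, cond_true, frcL_eq, frcL_eq, gd5_eq, h2] at h3
    rw [br5, PiL_toF, isZero_spec _ h3]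
  · intro c hc
    have h1 := (Finset.mem_filter.mp hc).2
    rw [free5, frc_eq] at h1
    simp only [Bool.and_eq_true, Nat.blt_eq, decide_eq_true_eq] at h1
    exact ⟨enc5_dec c h1.1, h1.2⟩

lemma r6_ge (hu : ∀ u, u / 2 ^ 16 = 0 → lowChk u = true) (hc : cnt piv 16 0 = 27614) :
    27614 ≤ finrank ℚ (LinearMap.range (DD 6)) := by
  refine le_trans ?_ (rank_comp (DD 6) (Finsupp.lmapDomain ℚ ℚ enc6))
  have hP : ∀ v ∈ (Finset.range (2 ^ 16)).filter (fun c => piv c = true),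
      coef (bd6 (srcf v)) v ≠ 0 ∧ ∀ p ∈ bd6 (srcf v),
        p.1 = v ∨ ordf p.1 < ordf v ∨ coef (bd6 (srcf v)) p.1 = 0 := by
    intro v hv
    obtain ⟨h1, h2⟩ := Finset.mem_filter.mp hv
    have h3 := hu v (Nat.div_eq_of_lt (Finset.mem_range.mp h1))
    rw [piv, frc_eq, Bool.not_eq_true'] at h2
    rw [lowChk, frc_eq, frc_eq, h2, cond_false, frc_eq, frcL_eq, gd6_eq, Bool.and_eq_true] at h3
    refine ⟨by simpa [isZ] using h3.1, fun p hp => ?_⟩
    have h4 := allL_spec _ _ h3.2 p hp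
    simpa [isZ, or_assoc] using h4
  have h := lower (Finsupp.lmapDomain ℚ ℚ enc6 ∘ₗ DD 6)
    ((Finset.range (2 ^ 16)).filter (fun c => piv c = true)) (fun c => dec 7 (srcf c)) ordf ?_ ?_
  · rwa [cnt_card, hc] at h
  · intro v hv
    rw [LinearMap.comp_apply, bd6_dec, toF_apply]
    exact_mod_cast (hP v hv).1
  · intro v hv w _ hw h
    rw [LinearMap.comp_apply, bd6_dec, toF_apply] at h
    have h1 : coef (bd6 (srcf v)) w ≠ 0 := by exact_mod_cast h
    obtain ⟨p, hp, rfl⟩ := coef_mem _ _ h1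
    rcases (hP v hv).2 p hp with h2 | h2 | h2
    · exact absurd h2 hw
    · exact h2
    · exact absurd h2 h1

end Pool.Agent.H.MP_037dd7_al
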