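import Pool.Agent.H.MP_037dd7_al.Defs

set_option autoImplicit false
set_option maxRecDepth 100000

namespace Pool.Agent.H.MP_037dd7_al

theorem cp0 : cnt piv 12 0 = 2423 := by decide +kernel
theorem cp1 : cnt piv 12 1 = 2423 := by decide +kernel
theorem cp2 : cnt piv 12 2 = 2425 := by decide +kernel
theorem cp3 : cnt piv 12 3 = 2422 := by decide +kernel
theorem cp4 : cnt piv 12 4 = 2428 := by decide +kernel
theorem cp5 : cnt piv 12 5 = 2420 := by decide +kernel
theorem cp6 : cnt piv 12 6 = 2429 := by decide +kernel
theorem cp7 : cnt piv 12 7 = 2423 := by decide +kernel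
theorem cp8 : cnt piv 12 8 = 2424 := by decide +kernel
theorem cp9 : cnt piv 12 9 = 2343 := by decide +kernel
theorem cp10 : cnt piv 12 10 = 2459 := by decide +kernel
theorem cp11 : cnt piv 12 11 = 995 := by decide +kernel
theorem cp12 : cnt piv 12 12 = 0 := by decide +kernel
theorem cp13 : cnt piv 12 13 = 0 := by decide +kernel
theorem cp14 : cnt piv 12 14 = 0 := by decide +kernel
theorem cp15 : cnt piv 12 15 = 0 := by decide +kernel
theorem c4 : cnt free4 11 0 = 528 := by decide +kernel
theorem c5a : cnt free5 12 0 + cnt free5 12 1 = 3175 := by decide +kernel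
theorem u4a : allB upChk4 12 0 = true := by decide +kernel
theorem u4b : allB upChk4 12 1 = true := by decide +kernel

end Pool.Agent.H.MP_037dd7_al
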