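import Pool.Agent.H.MP_037dd7_al.Data

set_option autoImplicit false

namespace Pool.Agent.H.MP_037dd7_al

noncomputable def frc {α : Type} (n : ℕ) (k : ℕ → α) : α :=
  Nat.rec (k 0) (fun m _ => k (Nat.succ m)) n

lemma frc_eq {α : Type} (n : ℕ) (k : ℕ → α) : frc n k = k n := by cases n <;> rfl

noncomputable def frcI {α : Type} (n : ℤ) (k : ℤ → α) : α :=
  Int.rec (fun a => frc a (fun m => k (Int.ofNat m))) (fun a => frc a (fun m => k (Int.negSucc m))) n

lemma frcI_eq {α : Type} (n : ℤ) (k : ℤ → α) : frcI n k = k n := by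
  cases n with
  | ofNat a => exact frc_eq a (fun m => k (Int.ofNat m))
  | negSucc a => exact frc_eq a (fun m => k (Int.negSucc m))

noncomputable def frcL {α : Type} (l : List (ℕ × ℤ)) : (List (ℕ × ℤ) → α) → α :=
  List.rec (fun k => k []) (fun p _ r k =>
    frc p.1 (fun a => frcI p.2 (fun b => r (fun l' => k ((a, b) :: l'))))) l

lemma frcL_eq {α : Type} (l : List (ℕ × ℤ)) : ∀ k : List (ℕ × ℤ) → α, frcL l k = k l := by
  induction l with
  | nil => intro k; rfl
  | cons p l ih =>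
    intro k
    have : frcL (p :: l) k =
      frc p.1 (fun a => frcI p.2 (fun b => frcL l (fun l' => k ((a, b) :: l')))) := rfl
    rw [this, frc_eq, frcI_eq, ih]

noncomputable def tget (t : Tr) : ℕ → ℕ :=
  Tr.rec (fun n _ => n) (fun _ _ l r i =>
    Bool.rec (r (Nat.shiftRight i 1)) (l (Nat.shiftRight i 1)) (Nat.beq (Nat.land i 1) 0)) t

def opF (a b : ℕ) : ℕ := Nat.mod (Nat.mod (Nat.shiftRight 230247648024455721754530280375944
  (Nat.add (Nat.mul 18 a) (Nat.mul 3 b))) 8) 6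

def f4 (a b c d : ℕ) : ℕ := Nat.add a (Nat.mul 6 (Nat.add b (Nat.mul 6 (Nat.add c (Nat.mul 6 d)))))
def f5 (a b c d e : ℕ) : ℕ := Nat.add a (Nat.mul 6 (f4 b c d e))
def f6 (a b c d e f : ℕ) : ℕ := Nat.add a (Nat.mul 6 (f5 b c d e f))

def g5 (a b c d e f : ℕ) : List (ℕ × ℤ) :=
  [(f5 b c d e f, Int.ofNat 1), (f5 (opF a b) c d e f, Int.negSucc 0),
   (f5 (opF a c) (opF b c) d e f, Int.ofNat 1),
   (f5 (opF a d) (opF b d) (opF c d) e f, Int.negSucc 0),
   (f5 (opF a e) (opF b e) (opF c e) (opF d e) f, Int.ofNat 1),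
   (f5 (opF a f) (opF b f) (opF c f) (opF d f) (opF e f), Int.negSucc 0)]

def g6 (a b c d e f g : ℕ) : List (ℕ × ℤ) :=
  [(f6 b c d e f g, Int.ofNat 1), (f6 (opF a b) c d e f g, Int.negSucc 0),
   (f6 (opF a c) (opF b c) d e f g, Int.ofNat 1),
   (f6 (opF a d) (opF b d) (opF c d) e f g, Int.negSucc 0),
   (f6 (opF a e) (opF b e) (opF c e) (opF d e) f g, Int.ofNat 1),
   (f6 (opF a f) (opF b f) (opF c f) (opF d f) (opF e f) g, Int.negSucc 0),
   (f6 (opF a g) (opF b g) (opF c g) (opF d g) (opF e g) (opF f g), Int.ofNat 1)]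

noncomputable def dg {α : Type} (u m : ℕ) (k : ℕ → α) : α := frc (Nat.mod (Nat.div u m) 6) k

noncomputable def gd5 (u : ℕ) : List (ℕ × ℤ) :=
  dg u 1 fun a => dg u 6 fun b => dg u 36 fun c => dg u 216 fun d => dg u 1296 fun e =>
    dg u 7776 fun f => g5 a b c d e f
noncomputable def gd6 (u : ℕ) : List (ℕ × ℤ) :=
  dg u 1 fun a => dg u 6 fun b => dg u 36 fun c => dg u 216 fun d => dg u 1296 fun e =>
    dg u 7776 fun f => dg u 46656 fun g => g6 a b c d e f g

lemma gd5_eq (u : ℕ) : gd5 u = bd5 u := by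
  simp only [gd5, dg, frc_eq]; rfl
lemma gd6_eq (u : ℕ) : gd6 u = bd6 u := by
  simp only [gd6, dg, frc_eq]; rfl

noncomputable def ent (c : ℕ) : ℕ :=
  Nat.land (Nat.shiftRight (tget t6 (Nat.shiftRight c 6)) (Nat.mul 34 (Nat.land c 63))) 17179869183
noncomputable def ordf (c : ℕ) : ℕ := Nat.land (ent c) 32767
noncomputable def srcf (c : ℕ) : ℕ := Nat.shiftRight (ent c) 15
noncomputable def piv (c : ℕ) : Bool := frc c fun c => !(Nat.beq (ordf c) 0)

noncomputable def lowChk (c : ℕ) : Bool :=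
  frc c fun c => frc (ordf c) fun o => cond (Nat.beq o 0) true
    (frc (srcf c) fun s => frcL (gd6 s) fun l =>
      !(isZ (coef l c)) &&
        allL (fun p => Nat.beq p.1 c || Nat.blt (ordf p.1) o || isZ (coef l p.1)) l)

noncomputable def dcL (fuel : ℕ) : ℕ → List (ℕ × ℤ) :=
  Nat.rec (fun _ => []) (fun _ r x => Bool.rec
    ((Nat.land x 8191, Int.subNatNat (Nat.land (Nat.shiftRight x 13) 7) 4) :: r (Nat.shiftRight x 16))
    [] (Nat.beq x 0)) fuel

noncomputable def pi4 (c : ℕ) : List (ℕ × ℤ) := frc (tget p4 c) (dcL 40)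
noncomputable def pi5 (c : ℕ) : List (ℕ × ℤ) := frc (tget p5 c) (dcL 40)

noncomputable def upChk4 (u : ℕ) : Bool :=
  frc u fun u => cond (Nat.blt u 7776) (frcL (bd4 u) fun l => frcL (bind pi4 l) isZero) true
noncomputable def upChk5 (u : ℕ) : Bool :=
  frc u fun u => cond (Nat.blt u 46656) (frcL (gd5 u) fun l => frcL (bind pi5 l) isZero) true

noncomputable def free4 (c : ℕ) : Bool :=
  frc c fun c => Nat.blt c 1296 && decide (pi4 c = [(c, 1)])
noncomputable def free5 (c : ℕ) : Bool :=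
  frc c fun c => Nat.blt c 7776 && decide (pi5 c = [(c, 1)])

end Pool.Agent.H.MP_037dd7_al
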