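import Pool.Agent.H.MP_037dd7_al.Defs

set_option autoImplicit false
set_option maxRecDepth 100000

namespace Pool.Agent.H.MP_037dd7_al

theorem low0 : allB lowChk 12 0 = true := by decide +kernel
theorem low1 : allB lowChk 12 1 = true := by decide +kernel
theorem low2 : allB lowChk 12 2 = true := by decide +kernel
theorem low3 : allB lowChk 12 3 = true := by decide +kernel
theorem low4 : allB lowChk 12 4 = true := by decide +kernel
theorem low5 : allB lowChk 12 5 = true := by decide +kernel

end Pool.Agent.H.MP_037dd7_al
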