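import Pool.Agent.H.MP_037dd7_al.Defs

set_option autoImplicit false
set_option maxRecDepth 100000

namespace Pool.Agent.H.MP_037dd7_al

theorem low6 : allB lowChk 12 6 = true := by decide +kernel
theorem low7 : allB lowChk 12 7 = true := by decide +kernel
theorem low8 : allB lowChk 12 8 = true := by decide +kernel
theorem low9 : allB lowChk 12 9 = true := by decide +kernel
theorem low10 : allB lowChk 12 10 = true := by decide +kernel
theorem low11 : allB lowChk 12 11 = true := by decide +kernel
theorem low12 : allB lowChk 12 12 = true := by decide +kernel
theorem low13 : allB lowChk 12 13 = true := by decide +kernel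
theorem low14 : allB lowChk 12 14 = true := by decide +kernel
theorem low15 : allB lowChk 12 15 = true := by decide +kernel

end Pool.Agent.H.MP_037dd7_al
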