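import Pool.Agent.H.MP_037dd7_al.Defs

set_option autoImplicit false
set_option maxRecDepth 100000

namespace Pool.Agent.H.MP_037dd7_al

theorem up6 : allB upChk5 12 6 = true := by decide +kernel
theorem up7 : allB upChk5 12 7 = true := by decide +kernel
theorem up8 : allB upChk5 12 8 = true := by decide +kernel
theorem up9 : allB upChk5 12 9 = true := by decide +kernel
theorem up10 : allB upChk5 12 10 = true := by decide +kernel
theorem up11 : allB upChk5 12 11 = true := by decide +kernel

end Pool.Agent.H.MP_037dd7_al
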